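import Pool.Agent.H24.WSP

namespace Pool.Agent.Results.MP_d7d825_lc.EquivSADS

open Pool.Agent.H24.RCA Pool.Agent.H24.WSP

/-- Over `RCA₀` the principle `P` (every infinite weakly stable partial order has an infinite
stable suborder) is equivalent to `SADS`: the equivalence holds in every model `(M, S)` of
`RCA₀`. (The first conjunct only records that `ℕ` with all its subsets is such a model.) -/
theorem result :
    Model ℕ Set.univ ∧
    ∀ (M : Type) [CommSemiring M] [LinearOrder M] [IsStrictOrderedRing M] (S : Set (Set M)),
      Model M S → (SADS S ↔ PrincipleP S) := by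
  refine ⟨?_, fun M _ _ _ S h => ⟨P_of_SADS h, SADS_of_P h⟩⟩
  refine ⟨Nat.zero_le, fun x hx => hx, fun x y h => ⟨y - x, by omega⟩, ?_, ?_⟩
  · intro P _ v i h0 hs x
    induction x with
    | zero => exact h0
    | succ n ih => exact hs n ih
  · intro P Q _ _ v i _
    exact Set.mem_univ _

end Pool.Agent.Results.MP_d7d825_lc.EquivSADS
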